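import Pool.Agent.NGP.Stmts
import Pool.Agent.Helper59_Vir.Two
import Pool.Agent.Helper21_PQP.FinZ

/-!
# NGP: the model perturbation
-/

set_option autoImplicit false

open scoped InnerProductSpace Topology ContDiff Manifold
open MeasureTheory Filter Set

noncomputable section

namespace Pool.Agent.NGP.H36

open Pool.Agent.Helper42_Paneitz Pool.Agent.Helper82_Vir Pool.Agent.FLX Pool.Agent.PQP

/-- a nonpositive smooth zonal function, zero exactly for `x_4 ≥ c` -/
def Rc (c : ℝ) (x : S4) : ℝ := -expNegInvGlue (c - (x : E5) 4)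

theorem rc_props (c : ℝ) (hc : -1 < c) (znl : ZnlStmt) :
    Sm (Rc c) ∧ Inv P2 (Rc c) ∧ (∀ x, Rc c x ≤ 0) ∧ (∀ x : S4, c ≤ (x : E5) 4 → Rc c x = 0) ∧
      ∃ x, Rc c x ≠ 0 := by
  have hq : ContDiff ℝ ∞ (fun s : ℝ => -expNegInvGlue (c - s)) := by
    have h1 : ContDiff ℝ ∞ expNegInvGlue := expNegInvGlue.contDiff
    exact (h1.comp (contDiff_const.sub contDiff_id)).neg
  obtain ⟨h1, h2, -, -⟩ := znl _ hq
  refine ⟨h1, h2, fun x => ?_, fun x hx => ?_, ?_⟩
  · unfold Rc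
    have := expNegInvGlue.nonneg (c - (x : E5) 4)
    linarith
  · unfold Rc
    rw [expNegInvGlue.zero_of_nonpos (by linarith), neg_zero]
  · have hS : ‖(-ee 4 : E5)‖ = 1 := by rw [norm_neg, norm_ee]
    refine ⟨⟨-ee 4, mem_sphere_zero_iff_norm.2 hS⟩, ?_⟩
    unfold Rc
    have h4 : ((⟨-ee 4, mem_sphere_zero_iff_norm.2 hS⟩ : S4) : E5) 4 = -1 := by
      show (-ee 4 : E5) 4 = -1
      simp
    rw [h4]
    have h5 := expNegInvGlue.pos_of_pos (show 0 < c - -1 by linarith)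
    intro h0
    linarith

end Pool.Agent.NGP.H36
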