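import Pool.Agent.NGP.Stmts

set_option autoImplicit false

open scoped InnerProductSpace Topology ContDiff Manifold
open MeasureTheory Filter Set

noncomputable section

namespace Pool.Agent.NGP.H36

open Pool.Agent.Helper42_Paneitz Pool.Agent.Helper82_Vir Pool.Agent.FLX Pool.Agent.PQP

/-- the quadratic form near `p` -/
theorem geo_quad {p : S4} {T : E5 →L[ℝ] E5} {ρ : ℝ} (hG : Geo0 p T ρ) (z : E5) :
    |⟪T z, z⟫_ℝ| ≤ ‖T‖ * ‖z - (p : E5)‖ ^ 2 := by
  have h1 : T z = T (z - (p : E5)) := by rw [map_sub, hG.zero, sub_zero]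
  have h2 : ⟪T z, z⟫_ℝ = ⟪T (z - (p : E5)), z - (p : E5)⟫_ℝ := by
    rw [h1, inner_sub_right, hG.symm (z - (p : E5)) (p : E5), hG.zero, inner_zero_right, sub_zero]
  rw [h2]
  refine (abs_real_inner_le_norm _ _).trans ?_
  have h3 := T.le_opNorm (z - (p : E5))
  have h4 := norm_nonneg (z - (p : E5))
  nlinarith

theorem two_sq {a b c : ℝ} (ha : 0 ≤ a) (hb : 0 ≤ b) (hc : 0 ≤ c) (h : a ≤ b + c) :
    a ^ 2 ≤ 2 * b ^ 2 + 2 * c ^ 2 := by
  nlinarith [sq_nonneg (b - c)]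

theorem four_cu {a b c : ℝ} (ha : 0 ≤ a) (hb : 0 ≤ b) (hc : 0 ≤ c) (h : a ≤ b + c) :
    a ^ 3 ≤ 4 * b ^ 3 + 4 * c ^ 3 := by
  have h1 : a ^ 3 ≤ (b + c) ^ 3 := pow_le_pow_left₀ ha h 3
  have h2 : 0 ≤ (b + c) * (b - c) ^ 2 := mul_nonneg (add_nonneg hb hc) (sq_nonneg _)
  nlinarith

/-- SBQ -/
theorem sbz (mkb : MkbStmt) (fav : FavStmt) (ker : KerStmt) (mos : MosStmt) : Sbq0Stmt := by
  intro p T ρ hG
  obtain ⟨C0, hC0, h0⟩ := mkb 0 le_rfl (by norm_num)
  obtain ⟨C2, hC2, h2⟩ := mkb 2 (by norm_num) (by norm_num)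
  obtain ⟨C3, hC3, h3⟩ := mkb 3 (by norm_num) (by norm_num)
  obtain ⟨CF, hCF, hF⟩ := fav (ρ / 2) (half_pos hG.pos)
  have hT := norm_nonneg T
  refine ⟨2 * ‖T‖ * C2 + 2 * ‖T‖ * C0 + 4 * C3 + 4 * C0 + CF, by positivity, ?_⟩
  intro q k B M hq w l σ d hl hl1 hσ hd hdρ x
  have hl0 : 0 ≤ l := by linarith
  have hk : 0 ≤ k := by linarith [hq.one]
  have hB := hq.B0
  have hM := hq.M0
  have hσ0 : 0 ≤ σ := by rw [hσ]; exact Real.sqrt_nonneg _
  have hd0 : 0 ≤ d := by rw [hd]; exact norm_nonneg _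
  set b : E5 := l • (w : E5) with hb
  have hbn : ‖b‖ < 1 := by
    rw [hb, norm_smul, Real.norm_eq_abs, abs_of_nonneg hl0, norm_eq_of_mem_sphere w, mul_one]
    exact hl1
  have hmob : Continuous (fun y : S4 => mob b y) :=
    mos.1.comp_continuous (f := fun y : S4 => (b, y)) (by fun_prop) (fun y => hbn)
  have hN : Continuous (fun y : S4 => ‖(mob b y : E5) - (w : E5)‖) :=
    ((continuous_subtype_val.comp hmob).sub continuous_const).norm
  have hE : Integrable (fun y => 1 + |ell x y|) sig :=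
    (integrable_const _).add (ker.1 x).abs
  have hE0 : ∀ y, 0 ≤ 1 + |ell x y| := fun y => by positivity
  set N : S4 → ℝ := fun y => ‖(mob b y : E5) - (w : E5)‖ with hNdef
  have hN0 : ∀ y, 0 ≤ N y := fun y => norm_nonneg _
  have hN2 : ∀ y, N y ≤ 2 := by
    intro y
    have := norm_sub_le (mob b y : E5) (w : E5)
    rw [norm_eq_of_mem_sphere, norm_eq_of_mem_sphere] at this
    simp only [hNdef]
    linarith
  have iEN : ∀ j : ℕ, Integrable (fun y => (1 + |ell x y|) * N y ^ j) sig := by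
    intro j
    refine hE.mul_bdd (c := 2 ^ j) (hN.pow j).aestronglyMeasurable (Eventually.of_forall fun y => ?_)
    rw [Real.norm_eq_abs, abs_of_nonneg (pow_nonneg (hN0 y) j)]
    exact pow_le_pow_left₀ (hN0 y) (hN2 y) j
  set F : Set S4 := {y : S4 | ρ / 2 ≤ ‖(mob b y : E5) - (w : E5)‖} with hFdef
  have mF : MeasurableSet F := (isClosed_le continuous_const hN).measurableSet
  -- the integrals
  have g0 : ∫ y, (1 + |ell x y|) ∂sig ≤ C0 := by
    have := h0 w x l hl0 hl1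
    simpa using this
  have g2 : ∫ y, (1 + |ell x y|) * N y ^ 2 ∂sig ≤ C2 * σ ^ 2 := by
    have := h2 w x l hl0 hl1
    rw [← hσ] at this
    simpa [Real.rpow_two] using this
  have g3 : ∫ y, (1 + |ell x y|) * N y ^ 3 ∂sig ≤ C3 * σ ^ 3 := by
    have := h3 w x l hl0 hl1
    rw [← hσ] at this
    have e3 : ∀ r : ℝ, r ^ (3 : ℝ) = r ^ 3 := fun r => by
      rw [← Real.rpow_natCast]
      norm_num
    simp only [e3] at this
    exact this
  have gF : ∫ y in F, (1 + |ell x y|) ∂sig ≤ CF * σ ^ (10 / 3 : ℝ) := by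
    have := (hF w x l hl hl1).2.1
    rw [← hσ] at this
    exact this
  -- the pointwise bound
  have hpt : ∀ y, (1 + |ell x y|) * |q (mob b y)| ≤
      (2 * k * ‖T‖) * ((1 + |ell x y|) * N y ^ 2) +
        (2 * k * ‖T‖ * d ^ 2 + 4 * B * d ^ 3) * (1 + |ell x y|) +
        (4 * B) * ((1 + |ell x y|) * N y ^ 3) + M * F.indicator (fun y => 1 + |ell x y|) y := by
    intro y
    have hEy := hE0 y
    have hNy := hN0 y
    have htri : ‖(mob b y : E5) - (p : E5)‖ ≤ N y + d := by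
      rw [hd]
      have : (mob b y : E5) - (p : E5) =
          ((mob b y : E5) - (w : E5)) + ((w : E5) - (p : E5)) := by abel
      rw [this]
      exact norm_add_le _ _
    have hind : 0 ≤ F.indicator (fun y => 1 + |ell x y|) y :=
      Set.indicator_nonneg (fun y _ => hE0 y) y
    by_cases hnear : ‖(mob b y : E5) - (p : E5)‖ < ρ
    · have h4 := hq.near (mob b y) hnear
      have h5 := geo_quad hG (mob b y : E5)
      have h6 : |q (mob b y)| ≤ k * (‖T‖ * ‖(mob b y : E5) - (p : E5)‖ ^ 2) +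
          B * ‖(mob b y : E5) - (p : E5)‖ ^ 3 := by
        have h7 : |q (mob b y)| ≤ |q (mob b y) + k * ⟪T (mob b y : E5), (mob b y : E5)⟫_ℝ| +
            |k * ⟪T (mob b y : E5), (mob b y : E5)⟫_ℝ| := by
          have := abs_sub (q (mob b y) + k * ⟪T (mob b y : E5), (mob b y : E5)⟫_ℝ)
            (k * ⟪T (mob b y : E5), (mob b y : E5)⟫_ℝ)
          rwa [add_sub_cancel_right] at this
        rw [abs_mul, abs_of_nonneg hk] at h7
        have h8 := mul_le_mul_of_nonneg_left h5 hk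
        linarith
      have h9 := two_sq (norm_nonneg _) hNy hd0 htri
      have h10 := four_cu (norm_nonneg _) hNy hd0 htri
      have h11 : |q (mob b y)| ≤ k * (‖T‖ * (2 * N y ^ 2 + 2 * d ^ 2)) +
          B * (4 * N y ^ 3 + 4 * d ^ 3) := by
        refine h6.trans (add_le_add ?_ ?_)
        · exact mul_le_mul_of_nonneg_left (mul_le_mul_of_nonneg_left h9 hT) hk
        · exact mul_le_mul_of_nonneg_left h10 hB
      have h12 := mul_le_mul_of_nonneg_left h11 hEy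
      have h13 : 0 ≤ M * F.indicator (fun y => 1 + |ell x y|) y := mul_nonneg hM hind
      refine h12.trans ?_
      have e : (1 + |ell x y|) * (k * (‖T‖ * (2 * N y ^ 2 + 2 * d ^ 2)) +
          B * (4 * N y ^ 3 + 4 * d ^ 3)) = (2 * k * ‖T‖) * ((1 + |ell x y|) * N y ^ 2) +
        (2 * k * ‖T‖ * d ^ 2 + 4 * B * d ^ 3) * (1 + |ell x y|) +
        (4 * B) * ((1 + |ell x y|) * N y ^ 3) := by ring
      rw [e]
      linarith
    · have h4 := hq.far (mob b y) (not_lt.1 hnear)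
      have hyF : y ∈ F := by
        rw [hFdef, Set.mem_ofPred_eq]
        have h5 := not_lt.1 hnear
        have h6 : ‖(mob b y : E5) - (w : E5)‖ = N y := rfl
        rw [h6]
        linarith
      rw [Set.indicator_of_mem hyF]
      have h5 := mul_le_mul_of_nonneg_left h4 hEy
      have h6 : 0 ≤ (2 * k * ‖T‖) * ((1 + |ell x y|) * N y ^ 2) := by positivity
      have h7 : 0 ≤ (2 * k * ‖T‖ * d ^ 2 + 4 * B * d ^ 3) * (1 + |ell x y|) := by positivity
      have h8 : 0 ≤ (4 * B) * ((1 + |ell x y|) * N y ^ 3) := by positivity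
      linarith
  have iF : Integrable (F.indicator fun y => 1 + |ell x y|) sig := hE.indicator mF
  have i1 : Integrable (fun y => (2 * k * ‖T‖) * ((1 + |ell x y|) * N y ^ 2)) sig :=
    (iEN 2).const_mul _
  have i2 : Integrable (fun y => (2 * k * ‖T‖ * d ^ 2 + 4 * B * d ^ 3) * (1 + |ell x y|)) sig :=
    hE.const_mul _
  have i3 : Integrable (fun y => (4 * B) * ((1 + |ell x y|) * N y ^ 3)) sig := (iEN 3).const_mul _
  have i4 : Integrable (fun y => M * F.indicator (fun y => 1 + |ell x y|) y) sig :=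
    iF.const_mul _
  have i12 : Integrable (fun y => (2 * k * ‖T‖) * ((1 + |ell x y|) * N y ^ 2) +
      (2 * k * ‖T‖ * d ^ 2 + 4 * B * d ^ 3) * (1 + |ell x y|)) sig := i1.add i2
  have i123 : Integrable (fun y => (2 * k * ‖T‖) * ((1 + |ell x y|) * N y ^ 2) +
      (2 * k * ‖T‖ * d ^ 2 + 4 * B * d ^ 3) * (1 + |ell x y|) +
      (4 * B) * ((1 + |ell x y|) * N y ^ 3)) sig := i12.add i3
  have i1234 : Integrable (fun y => (2 * k * ‖T‖) * ((1 + |ell x y|) * N y ^ 2) +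
      (2 * k * ‖T‖ * d ^ 2 + 4 * B * d ^ 3) * (1 + |ell x y|) +
      (4 * B) * ((1 + |ell x y|) * N y ^ 3) +
      M * F.indicator (fun y => 1 + |ell x y|) y) sig := i123.add i4
  have hmain : ∫ y, (1 + |ell x y|) * |q (mob b y)| ∂sig ≤
      (2 * k * ‖T‖) * ∫ y, (1 + |ell x y|) * N y ^ 2 ∂sig +
        (2 * k * ‖T‖ * d ^ 2 + 4 * B * d ^ 3) * ∫ y, (1 + |ell x y|) ∂sig +
        (4 * B) * ∫ y, (1 + |ell x y|) * N y ^ 3 ∂sig +
        M * ∫ y in F, (1 + |ell x y|) ∂sig := by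
    refine (integral_mono_of_nonneg (Eventually.of_forall fun y =>
      mul_nonneg (hE0 y) (abs_nonneg _)) i1234 (Eventually.of_forall hpt)).trans (le_of_eq ?_)
    rw [integral_add i123 i4, integral_add i12 i3, integral_add i1 i2, integral_const_mul,
      integral_const_mul, integral_const_mul, integral_const_mul, integral_indicator mF]
  show ∫ y, (1 + |ell x y|) * |q (mob b y)| ∂sig ≤ _
  refine hmain.trans ?_
  have hr : 0 ≤ σ ^ (10 / 3 : ℝ) := Real.rpow_nonneg hσ0 _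
  have b1 : (2 * k * ‖T‖) * ∫ y, (1 + |ell x y|) * N y ^ 2 ∂sig ≤
      (2 * k * ‖T‖) * (C2 * σ ^ 2) := mul_le_mul_of_nonneg_left g2 (by positivity)
  have b2 : (2 * k * ‖T‖ * d ^ 2 + 4 * B * d ^ 3) * ∫ y, (1 + |ell x y|) ∂sig ≤
      (2 * k * ‖T‖ * d ^ 2 + 4 * B * d ^ 3) * C0 := mul_le_mul_of_nonneg_left g0 (by positivity)
  have b3 : (4 * B) * ∫ y, (1 + |ell x y|) * N y ^ 3 ∂sig ≤ (4 * B) * (C3 * σ ^ 3) :=
    mul_le_mul_of_nonneg_left g3 (by positivity)
  have b4 : M * ∫ y in F, (1 + |ell x y|) ∂sig ≤ M * (CF * σ ^ (10 / 3 : ℝ)) :=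
    mul_le_mul_of_nonneg_left gF hM
  refine (add_le_add (add_le_add (add_le_add b1 b2) b3) b4).trans ?_
  set r := σ ^ (10 / 3 : ℝ) with hrdef
  have t1 : 0 ≤ k * σ ^ 2 := by positivity
  have t2 : 0 ≤ k * d ^ 2 := by positivity
  have t3 : 0 ≤ B * σ ^ 3 := by positivity
  have t4 : 0 ≤ B * d ^ 3 := by positivity
  have t5 : 0 ≤ M * r := by positivity
  set τ := ‖T‖ with hτ
  have key : (2 * τ * C2 + 2 * τ * C0 + 4 * C3 + 4 * C0 + CF) *
      (k * (σ ^ 2 + d ^ 2) + B * (σ ^ 3 + d ^ 3) + M * r) -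
      (2 * k * τ * (C2 * σ ^ 2) + (2 * k * τ * d ^ 2 + 4 * B * d ^ 3) * C0 +
        4 * B * (C3 * σ ^ 3) + M * (CF * r)) =
      (2 * τ * C0 + 4 * C3 + 4 * C0 + CF) * (k * σ ^ 2) +
      (2 * τ * C2 + 4 * C3 + 4 * C0 + CF) * (k * d ^ 2) +
      (2 * τ * C2 + 2 * τ * C0 + 4 * C0 + CF) * (B * σ ^ 3) +
      (2 * τ * C2 + 2 * τ * C0 + 4 * C3 + CF) * (B * d ^ 3) +
      (2 * τ * C2 + 2 * τ * C0 + 4 * C3 + 4 * C0) * (M * r) := by ring
  have key2 : 0 ≤ (2 * τ * C0 + 4 * C3 + 4 * C0 + CF) * (k * σ ^ 2) +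
      (2 * τ * C2 + 4 * C3 + 4 * C0 + CF) * (k * d ^ 2) +
      (2 * τ * C2 + 2 * τ * C0 + 4 * C0 + CF) * (B * σ ^ 3) +
      (2 * τ * C2 + 2 * τ * C0 + 4 * C3 + CF) * (B * d ^ 3) +
      (2 * τ * C2 + 2 * τ * C0 + 4 * C3 + 4 * C0) * (M * r) := by positivity
  linarith

end Pool.Agent.NGP.H36
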