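import Pool.Agent.NGP.Stmts
import Pool.Agent.Helper54_FLX.All

/-!
# Row pqp XPN (MP_5f32e0_gt): the expansion near the boundary of the ball
-/

set_option autoImplicit false

open scoped InnerProductSpace Topology ContDiff Manifold
open MeasureTheory Filter Set

noncomputable section

namespace Pool.Agent.NGP.H36

open Pool.Agent.Helper42_Paneitz Pool.Agent.Helper82_Vir Pool.Agent.FLX Pool.Agent.PQP

theorem cont_mob {b : E5} (hb : ‖b‖ < 1) : Continuous (mob b) := by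
  rw [continuous_iff_continuousAt]
  intro x
  have h1 := H54.mos_all.1.comp_continuous (f := fun x : S4 => (b, x))
    (continuous_const.prodMk continuous_id) (fun x => hb)
  exact h1.continuousAt

/-- the quadratic form on the sphere -/
def qf (T : E5 →L[ℝ] E5) (z : S4) : ℝ := ⟪T (z : E5), (z : E5)⟫_ℝ

theorem cont_qf (T : E5 →L[ℝ] E5) : Continuous (qf T) := by
  unfold qf
  fun_prop

/-- decomposition of the integral -/
theorem dec {b : E5} (hb : ‖b‖ < 1) {q : S4 → ℝ} (hq : Continuous q) (T : E5 →L[ℝ] E5) (k ρ : ℝ)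
    (p : S4) (e : E5) :
    ∫ y, q (mob b y) * ⟪e, (y : E5)⟫_ℝ ∂sig =
      -(k * ∫ y, qf T (mob b y) * ⟪e, (y : E5)⟫_ℝ ∂sig) +
      ⟪e, ∫ y in {y : S4 | ‖(mob b y : E5) - (p : E5)‖ < ρ},
        (q (mob b y) + k * qf T (mob b y)) • (y : E5) ∂sig⟫_ℝ +
      (∫ y in {y : S4 | ρ ≤ ‖(mob b y : E5) - (p : E5)‖}, q (mob b y) * ⟪e, (y : E5)⟫_ℝ ∂sig) +
      k * ∫ y in {y : S4 | ρ ≤ ‖(mob b y : E5) - (p : E5)‖},
        qf T (mob b y) * ⟪e, (y : E5)⟫_ℝ ∂sig := by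
  have hm := cont_mob hb
  have hqm : Continuous fun y => q (mob b y) := hq.comp hm
  have hTm : Continuous fun y => qf T (mob b y) := (cont_qf T).comp hm
  have he : Continuous fun y : S4 => ⟪e, (y : E5)⟫_ℝ := continuous_const.inner continuous_subtype_val
  set N : Set S4 := {y : S4 | ‖(mob b y : E5) - (p : E5)‖ < ρ} with hN
  have hNm : MeasurableSet N := by
    refine (isOpen_lt ?_ continuous_const).measurableSet
    exact ((continuous_subtype_val.comp hm).sub continuous_const).norm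
  have hF : {y : S4 | ρ ≤ ‖(mob b y : E5) - (p : E5)‖} = Nᶜ := by
    ext y
    simp [hN]
  rw [hF]
  have i1 : Integrable (fun y : S4 => (q (mob b y) + k * qf T (mob b y)) • (y : E5)) sig :=
    H40.int_smul (hqm.add (continuous_const.mul hTm))
  rw [← integral_inner i1.integrableOn e]
  have e1 : ∀ y : S4, ⟪e, (q (mob b y) + k * qf T (mob b y)) • (y : E5)⟫_ℝ =
      q (mob b y) * ⟪e, (y : E5)⟫_ℝ + k * (qf T (mob b y) * ⟪e, (y : E5)⟫_ℝ) := fun y => by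
    rw [real_inner_smul_right]
    ring
  simp_rw [e1]
  have j1 : Integrable (fun y : S4 => q (mob b y) * ⟪e, (y : E5)⟫_ℝ) sig :=
    integrable_cont (hqm.mul he)
  have j2 : Integrable (fun y : S4 => qf T (mob b y) * ⟪e, (y : E5)⟫_ℝ) sig :=
    integrable_cont (hTm.mul he)
  rw [integral_add j1.integrableOn (j2.const_mul k).integrableOn, integral_const_mul]
  have h1 := integral_add_compl hNm j1
  have h2 := integral_add_compl hNm j2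
  rw [← h1, ← h2]
  ring

theorem abs4 (x y z t : ℝ) {a b c d : ℝ} (hx : |x| ≤ a) (hy : |y| ≤ b) (hz : |z| ≤ c)
    (ht : |t| ≤ d) : |x + y + z + t| ≤ a + b + c + d := by
  have h1 := abs_add_le (x + y + z) t
  have h2 := abs_add_le (x + y) z
  have h3 := abs_add_le x y
  linarith

theorem xpz (hQ : QdrStmt) (hN : Nea0Stmt) (hF : FaeStmt) : Xpn0Stmt := by
  obtain ⟨c, Cq, lq, hc, hlq, hlq1, hQ⟩ := hQ
  obtain ⟨CN, hCN, hN⟩ := hN
  refine ⟨c, Cq, hc, ?_⟩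
  intro p T ρ hG
  obtain ⟨CF, hCF, hF⟩ := hF p ρ hG.pos hG.le
  have hT0 := norm_nonneg T
  refine ⟨5 * |Cq| * ‖T‖ + CN + CF + CF * ‖T‖, lq, by positivity, hlq, hlq1, ?_⟩
  intro q k B M hCon w l σ d hl hl1 hσ hd hdρ
  have hl12 : 1 / 2 ≤ l := hlq.trans hl
  have hl0 : 0 ≤ l := by linarith
  have hnl : 0 ≤ 1 - l ^ 2 := by nlinarith
  have hσ2 : σ ^ 2 = 1 - l ^ 2 := by rw [hσ, Real.sq_sqrt hnl]
  have hσ0 : 0 ≤ σ := by rw [hσ]; exact Real.sqrt_nonneg _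
  have hσ4 : σ ^ 4 = (1 - l ^ 2) ^ 2 := by rw [← hσ2]; ring
  have hd0 : 0 ≤ d := by rw [hd]; exact norm_nonneg _
  have hk := hCon.one
  have hB0 := hCon.B0
  have hM0 := hCon.M0
  have hb : ‖l • (w : E5)‖ < 1 := by
    rw [norm_smul, S4_norm, mul_one, Real.norm_of_nonneg hl0]
    exact hl1
  obtain ⟨j₁, j₂, a1, a2, a3, a4, a5⟩ := hQ w l hl hl1
  obtain ⟨a6, a7⟩ := a5 T hG.symm
  have hd' : ‖(w : E5) - (p : E5)‖ ≤ ρ / 2 := by rw [← hd]; exact hdρ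
  obtain ⟨b1, b2, b3⟩ := hF q M hCon.cont hM0 hCon.far w l hd' hl12 hl1
  have hNN := hN p T ρ q k B M hG hCon w l hl0 hl1
  rw [← hd, ← hσ] at hNN
  rw [← hd] at b1
  rw [← hσ] at b2
  rw [← hσ2] at b1
  have hnear : ∀ e : E5, ‖e‖ ≤ 1 →
      |⟪e, ∫ y in {y : S4 | ‖(mob (l • (w : E5)) y : E5) - (p : E5)‖ < ρ},
        (q (mob (l • (w : E5)) y) + k * qf T (mob (l • (w : E5)) y)) • (y : E5) ∂sig⟫_ℝ| ≤
        CN * (B * (σ ^ 3 + d ^ 3)) := by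
    intro e he
    refine (abs_real_inner_le_norm _ _).trans ?_
    calc _ ≤ 1 * (CN * B * (σ ^ 3 + d ^ 3)) := mul_le_mul he hNN (norm_nonneg _) zero_le_one
      _ = CN * (B * (σ ^ 3 + d ^ 3)) := by ring
  have hfar3 : ∀ e : E5, ‖e‖ ≤ 1 →
      |k * ∫ y in {y : S4 | ρ ≤ ‖(mob (l • (w : E5)) y : E5) - (p : E5)‖},
        qf T (mob (l • (w : E5)) y) * ⟪e, (y : E5)⟫_ℝ ∂sig| ≤ CF * ‖T‖ * (k * σ ^ 4) := by
    intro e he
    have h1 := b3 T e he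
    rw [abs_mul, abs_of_nonneg (by linarith : (0 : ℝ) ≤ k), hσ4]
    calc _ ≤ k * (CF * ‖T‖ * (1 - l ^ 2) ^ 2) := mul_le_mul_of_nonneg_left h1 (by linarith)
      _ = CF * ‖T‖ * (k * (1 - l ^ 2) ^ 2) := by ring
  have hj1 : |j₁| ≤ |Cq| := by
    rw [abs_of_nonneg (by linarith), abs_of_nonneg (by linarith)]
    exact a2
  have n1 : 0 ≤ k * d ^ 2 * σ ^ 2 := by positivity
  have n2 : 0 ≤ B * (σ ^ 3 + d ^ 3) := by positivity
  have n3 : 0 ≤ M * σ ^ 4 * (d + σ ^ 2) := by positivity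
  have n4 : 0 ≤ k * σ ^ 4 := by positivity
  have n5 : 0 ≤ M * σ ^ 5 := by positivity
  refine ⟨j₁, j₂, a1, a2, a3, a4, ?_, ?_⟩
  · rw [dec hb hCon.cont T k ρ p (w : E5)]
    have h1 : (∫ y, qf T (mob (l • (w : E5)) y) * ⟪(w : E5), (y : E5)⟫_ℝ ∂sig) =
      -((tr5 T - 5 * ⟪T (w : E5), (w : E5)⟫_ℝ) * j₁ * (1 - l ^ 2)) := a6
    have h2 := hnear (w : E5) (S4_norm w).le
    have h3 := hfar3 (w : E5) (S4_norm w).le
    have h4 : |⟪T (w : E5), (w : E5)⟫_ℝ| ≤ ‖T‖ * d ^ 2 := by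
      have e1 : ⟪T (w : E5), (w : E5)⟫_ℝ =
          ⟪T ((w : E5) - (p : E5)), (w : E5) - (p : E5)⟫_ℝ := by
        rw [map_sub, hG.zero, sub_zero, inner_sub_right, hG.symm (w : E5) (p : E5), hG.zero,
          inner_zero_right, sub_zero]
      rw [e1, hd]
      refine (abs_real_inner_le_norm _ _).trans ?_
      calc ‖T ((w : E5) - (p : E5))‖ * ‖(w : E5) - (p : E5)‖ ≤
            ‖T‖ * ‖(w : E5) - (p : E5)‖ * ‖(w : E5) - (p : E5)‖ :=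
            mul_le_mul_of_nonneg_right (T.le_opNorm _) (norm_nonneg _)
        _ = ‖T‖ * ‖(w : E5) - (p : E5)‖ ^ 2 := by ring
    have h5 : |k * (5 * ⟪T (w : E5), (w : E5)⟫_ℝ) * j₁ * σ ^ 2| ≤
        5 * |Cq| * ‖T‖ * (k * d ^ 2 * σ ^ 2) := by
      rw [abs_mul, abs_mul, abs_mul, abs_mul, abs_of_nonneg (by linarith : (0 : ℝ) ≤ k),
        abs_of_pos (by norm_num : (0 : ℝ) < 5), abs_of_nonneg (sq_nonneg σ)]
      calc k * (5 * |⟪T (w : E5), (w : E5)⟫_ℝ|) * |j₁| * σ ^ 2 ≤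
            k * (5 * (‖T‖ * d ^ 2)) * |Cq| * σ ^ 2 := by gcongr
        _ = 5 * |Cq| * ‖T‖ * (k * d ^ 2 * σ ^ 2) := by ring
    have b1' : |(∫ y in {y : S4 | ρ ≤ ‖(mob (l • (w : E5)) y : E5) - (p : E5)‖},
        q (mob (l • (w : E5)) y) * ⟪(w : E5), (y : E5)⟫_ℝ ∂sig) + (σ ^ 2) ^ 2 * GG p ρ q| ≤
        CF * (M * σ ^ 4 * (d + σ ^ 2)) := by
      refine b1.trans (le_of_eq ?_)
      ring
    rw [h1, ← hσ2]
    have e2 : -(k * -((tr5 T - 5 * ⟪T (w : E5), (w : E5)⟫_ℝ) * j₁ * σ ^ 2)) +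
        ⟪(w : E5), ∫ y in {y : S4 | ‖(mob (l • (w : E5)) y : E5) - (p : E5)‖ < ρ},
          (q (mob (l • (w : E5)) y) + k * qf T (mob (l • (w : E5)) y)) • (y : E5) ∂sig⟫_ℝ +
        (∫ y in {y : S4 | ρ ≤ ‖(mob (l • (w : E5)) y : E5) - (p : E5)‖},
          q (mob (l • (w : E5)) y) * ⟪(w : E5), (y : E5)⟫_ℝ ∂sig) +
        k * (∫ y in {y : S4 | ρ ≤ ‖(mob (l • (w : E5)) y : E5) - (p : E5)‖},
          qf T (mob (l • (w : E5)) y) * ⟪(w : E5), (y : E5)⟫_ℝ ∂sig) -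
        (k * tr5 T * j₁ * σ ^ 2 - σ ^ 4 * GG p ρ q) =
        -(k * (5 * ⟪T (w : E5), (w : E5)⟫_ℝ) * j₁ * σ ^ 2) +
        ⟪(w : E5), ∫ y in {y : S4 | ‖(mob (l • (w : E5)) y : E5) - (p : E5)‖ < ρ},
          (q (mob (l • (w : E5)) y) + k * qf T (mob (l • (w : E5)) y)) • (y : E5) ∂sig⟫_ℝ +
        ((∫ y in {y : S4 | ρ ≤ ‖(mob (l • (w : E5)) y : E5) - (p : E5)‖},
          q (mob (l • (w : E5)) y) * ⟪(w : E5), (y : E5)⟫_ℝ ∂sig) + (σ ^ 2) ^ 2 * GG p ρ q) +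
        k * (∫ y in {y : S4 | ρ ≤ ‖(mob (l • (w : E5)) y : E5) - (p : E5)‖},
          qf T (mob (l • (w : E5)) y) * ⟪(w : E5), (y : E5)⟫_ℝ ∂sig) := by ring
    rw [e2]
    have p1 : 0 ≤ 5 * |Cq| * ‖T‖ := by positivity
    have p2 : 0 ≤ CF * ‖T‖ := by positivity
    have key := abs4 (-(k * (5 * ⟪T (w : E5), (w : E5)⟫_ℝ) * j₁ * σ ^ 2)) _ _ _
      ((abs_neg _).le.trans h5) h2 b1' h3
    refine key.trans ?_
    nlinarith [mul_nonneg p1 n2, mul_nonneg p1 n3, mul_nonneg p1 n4, mul_nonneg hCN n1,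
      mul_nonneg hCN n3, mul_nonneg hCN n4, mul_nonneg hCF n1, mul_nonneg hCF n2,
      mul_nonneg hCF n4, mul_nonneg p2 n1, mul_nonneg p2 n2, mul_nonneg p2 n3]
  · intro e he1 he2
    rw [dec hb hCon.cont T k ρ p e]
    have h1 : (∫ y, qf T (mob (l • (w : E5)) y) * ⟪e, (y : E5)⟫_ℝ ∂sig) =
      j₂ * √(1 - l ^ 2) * ⟪T (w : E5), e⟫_ℝ := a7 e he1
    have h2 := hnear e he2
    have h3 := hfar3 e he2
    have h4 := b2 e he1 he2
    rw [h1, ← hσ]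
    have e2 : -(k * (j₂ * σ * ⟪T (w : E5), e⟫_ℝ)) +
        ⟪e, ∫ y in {y : S4 | ‖(mob (l • (w : E5)) y : E5) - (p : E5)‖ < ρ},
          (q (mob (l • (w : E5)) y) + k * qf T (mob (l • (w : E5)) y)) • (y : E5) ∂sig⟫_ℝ +
        (∫ y in {y : S4 | ρ ≤ ‖(mob (l • (w : E5)) y : E5) - (p : E5)‖},
          q (mob (l • (w : E5)) y) * ⟪e, (y : E5)⟫_ℝ ∂sig) +
        k * (∫ y in {y : S4 | ρ ≤ ‖(mob (l • (w : E5)) y : E5) - (p : E5)‖},
          qf T (mob (l • (w : E5)) y) * ⟪e, (y : E5)⟫_ℝ ∂sig) +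
        k * j₂ * σ * ⟪T (w : E5), e⟫_ℝ =
        0 + ⟪e, ∫ y in {y : S4 | ‖(mob (l • (w : E5)) y : E5) - (p : E5)‖ < ρ},
          (q (mob (l • (w : E5)) y) + k * qf T (mob (l • (w : E5)) y)) • (y : E5) ∂sig⟫_ℝ +
        (∫ y in {y : S4 | ρ ≤ ‖(mob (l • (w : E5)) y : E5) - (p : E5)‖},
          q (mob (l • (w : E5)) y) * ⟪e, (y : E5)⟫_ℝ ∂sig) +
        k * (∫ y in {y : S4 | ρ ≤ ‖(mob (l • (w : E5)) y : E5) - (p : E5)‖},
          qf T (mob (l • (w : E5)) y) * ⟪e, (y : E5)⟫_ℝ ∂sig) := by ring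
    rw [e2]
    have p1 : 0 ≤ 5 * |Cq| * ‖T‖ := by positivity
    have p2 : 0 ≤ CF * ‖T‖ := by positivity
    have h4' : |∫ y in {y : S4 | ρ ≤ ‖(mob (l • (w : E5)) y : E5) - (p : E5)‖},
        q (mob (l • (w : E5)) y) * ⟪e, (y : E5)⟫_ℝ ∂sig| ≤ CF * (M * σ ^ 5) := by
      refine h4.trans (le_of_eq ?_)
      ring
    have key := abs4 0 _ _ _ (abs_zero.le : |(0 : ℝ)| ≤ 0) h2 h4' h3
    refine key.trans ?_
    nlinarith [mul_nonneg p1 n2, mul_nonneg p1 n5, mul_nonneg p1 n4,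
      mul_nonneg hCN n5, mul_nonneg hCN n4, mul_nonneg hCF n2,
      mul_nonneg hCF n4, mul_nonneg p2 n2, mul_nonneg p2 n5]

end Pool.Agent.NGP.H36
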