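import Pool.Agent.NGP.Stmts
import Pool.Agent.Helper71_PQP.ZEX

/-!
# NGP, row ZNL: Hessian and Laplacian of zonal functions on the circle
-/

set_option autoImplicit false

open scoped InnerProductSpace Topology ContDiff Manifold
open MeasureTheory Filter Set

noncomputable section

namespace Pool.Agent.NGP.H36

open Pool.Agent.Helper42_Paneitz Pool.Agent.Helper82_Vir Pool.Agent.FLX Pool.Agent.PQP
open Pool.Agent.PQP.H71 (cir_four cid_four cir_cid refl_four)

theorem norm_cid (φ : ℝ) : ‖cid φ‖ = 1 := by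
  have h : ‖cid φ‖ ^ 2 = 1 := by
    unfold cid
    rw [@norm_add_sq_real, norm_smul, norm_smul, norm_ee, norm_ee, inner_smul_left,
      inner_smul_right, inner_ee_ee (by decide : (4 : Fin 5) ≠ 0), mul_zero, mul_zero, mul_zero,
      Real.norm_eq_abs, Real.norm_eq_abs, mul_one, mul_one, sq_abs, sq_abs]
    have := Real.cos_sq_add_sin_sq φ
    nlinarith
  have h0 := norm_nonneg (cid φ)
  nlinarith

theorem norm_line (φ t : ℝ) : ‖((cir φ : S4) : E5) + t • cid φ‖ = √(1 + t ^ 2) := by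
  have h : ‖((cir φ : S4) : E5) + t • cid φ‖ ^ 2 = 1 + t ^ 2 := by
    rw [@norm_add_sq_real, inner_smul_right, cir_cid, norm_smul, norm_cid, S4_norm,
      Real.norm_eq_abs, mul_one, sq_abs]
    ring
  rw [← h, Real.sqrt_sq (norm_nonneg _)]

theorem hasDeriv_h (c s t : ℝ) : HasDerivAt (fun t : ℝ => (c - t * s) / √(1 + t ^ 2))
    ((-s - c * t) / ((1 + t ^ 2) * √(1 + t ^ 2))) t := by
  have hp : 0 < 1 + t ^ 2 := by positivity
  have hs := Real.sqrt_pos.2 hp
  have hs2 : √(1 + t ^ 2) ^ 2 = 1 + t ^ 2 := Real.sq_sqrt hp.le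
  have h1 : HasDerivAt (fun t : ℝ => c - t * s) (-s) t := by
    have := ((hasDerivAt_id t).mul_const s).const_sub c
    simpa using this
  have h2 : HasDerivAt (fun t : ℝ => 1 + t ^ 2) (2 * t) t := by
    have := (hasDerivAt_pow 2 t).const_add 1
    simpa using this
  have h3 := h2.sqrt hp.ne'
  refine (h1.fun_div h3 hs.ne').congr_deriv ?_
  set r := √(1 + t ^ 2) with hr
  rw [← hs2]
  have hr2 : r ^ 2 = 1 + t ^ 2 := hs2
  field_simp
  rw [hr2]
  ring

theorem hasDeriv_h1 (c s : ℝ) : HasDerivAt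
    (fun t : ℝ => (-s - c * t) / ((1 + t ^ 2) * √(1 + t ^ 2))) (-c) 0 := by
  have h1 : HasDerivAt (fun t : ℝ => -s - c * t) (-c) 0 := by
    have := ((hasDerivAt_id (0 : ℝ)).const_mul c).const_sub (-s)
    simpa using this
  have h2 : HasDerivAt (fun t : ℝ => 1 + t ^ 2) 0 0 := by
    have := (hasDerivAt_pow 2 (0 : ℝ)).const_add 1
    simpa using this
  have h3 := h2.sqrt (by norm_num : (1 + (0 : ℝ) ^ 2) ≠ 0)
  have h4 := h2.fun_mul h3
  refine (h1.fun_div h4 (by norm_num)).congr_deriv ?_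
  norm_num

/-- the Hessian of a zonal function in the direction of the circle -/
theorem hess_cir {q : ℝ → ℝ} (hq : ContDiff ℝ ∞ q) (hSm : Sm (fun x : S4 => q ((x : E5) 4)))
    (φ : ℝ) : hess (fun x : S4 => q ((x : E5) 4)) (cir φ) (cid φ) (cid φ) =
      deriv (deriv q) (Real.cos φ) * Real.sin φ ^ 2 - deriv q (Real.cos φ) * Real.cos φ := by
  have hq' : ContDiff ℝ ∞ (deriv q) := (contDiff_infty_iff_deriv.1 hq).2
  have hdq : ∀ c, HasDerivAt q (deriv q c) c := fun c =>
    ((hq.differentiable (by simp)) c).hasDerivAt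
  have hdq' : ∀ c, HasDerivAt (deriv q) (deriv (deriv q) c) c := fun c =>
    ((hq'.differentiable (by simp)) c).hasDerivAt
  set c := Real.cos φ with hc
  set s := Real.sin φ with hs
  set h : ℝ → ℝ := fun t => (c - t * s) / √(1 + t ^ 2) with hh
  set k : ℝ → ℝ := fun t => (-s - c * t) / ((1 + t ^ 2) * √(1 + t ^ 2)) with hk
  have hx := S4_ne_zero (cir φ)
  have hne : ∀ᶠ t in 𝓝 (0 : ℝ), ((cir φ : S4) : E5) + t • cid φ ≠ 0 :=
    (tendsto_line ((cir φ : S4) : E5) _).eventually (eventually_ne_zero hx)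
  have heq : ∀ t : ℝ, ((cir φ : S4) : E5) + t • cid φ ≠ 0 →
      radialExt (fun x : S4 => q ((x : E5) 4)) (((cir φ : S4) : E5) + t • cid φ) = q (h t) := by
    intro t ht
    rw [radialExt_apply _ ht]
    congr 1
    show (‖((cir φ : S4) : E5) + t • cid φ‖⁻¹ • (((cir φ : S4) : E5) + t • cid φ)) 4 = h t
    rw [norm_line]
    show (√(1 + t ^ 2))⁻¹ * (((cir φ : S4) : E5) 4 + t * (cid φ) 4) = (c - t * s) / √(1 + t ^ 2)
    rw [cir_four, cid_four, div_eq_inv_mul]
    ring
  have hC : ContDiffAt ℝ 2 (radialExt fun x : S4 => q ((x : E5) 4)) ((cir φ : S4) : E5) :=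
    (hSm _ hx).of_le two_le_infty
  have hmain := iteratedFDeriv_two_line (v := cid φ) (φ1 := fun t => deriv q (h t) * k t)
    (φ2 := deriv (deriv q) c * s ^ 2 - deriv q c * c) hC (by
      filter_upwards [hne.eventually_nhds] with t ht4
      have hcomp : HasDerivAt (fun t => q (h t)) (deriv q (h t) * k t) t :=
        (hdq _).comp t (hasDeriv_h c s t)
      refine hcomp.congr_of_eventuallyEq ?_
      filter_upwards [ht4] with t' ht'
      exact heq t' ht') (by
      have h0 : h 0 = c := by simp [hh]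
      have k0 : k 0 = -s := by simp [hk]
      have hc1 : HasDerivAt (fun t => deriv q (h t)) (deriv (deriv q) (h 0) * k 0) 0 :=
        (hdq' _).comp 0 (hasDeriv_h c s 0)
      refine (hc1.fun_mul (hasDeriv_h1 c s)).congr_deriv ?_
      rw [k0, h0]
      ring)
  rw [iteratedFDeriv_two_apply] at hmain
  simp only [Matrix.cons_val_zero, Matrix.cons_val_one] at hmain
  exact hmain

/-- vectors of the plane orthogonal to a point of the circle -/
theorem mem_P2_perp {φ : ℝ} {v : E5} (hv : v ∈ P2) (hp : ⟪((cir φ : S4) : E5), v⟫_ℝ = 0) :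
    ∃ a : ℝ, v = a • cid φ := by
  obtain ⟨α, β, rfl⟩ := Submodule.mem_span_pair.1 hv
  have h1 : ⟪((cir φ : S4) : E5), α • ee 4 + β • ee 0⟫_ℝ =
      α * Real.cos φ + β * Real.sin φ := by
    show ⟪(Real.cos φ • ee 4 + Real.sin φ • ee 0 : E5), α • ee 4 + β • ee 0⟫_ℝ = _
    simp only [inner_add_left, inner_add_right, inner_smul_left, inner_smul_right,
      real_inner_self_eq_norm_sq, norm_ee, inner_ee_ee (by decide : (4 : Fin 5) ≠ 0),
      inner_ee_ee (by decide : (0 : Fin 5) ≠ 4)]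
    simp only [conj_trivial]
    ring
  rw [h1] at hp
  refine ⟨-α * Real.sin φ + β * Real.cos φ, ?_⟩
  have hsc := Real.sin_sq_add_cos_sq φ
  unfold cid
  rw [smul_add, smul_smul, smul_smul]
  congr 1
  · congr 1
    linear_combination (-α) * hsc + Real.cos φ * hp
  · congr 1
    linear_combination (-β) * hsc + Real.sin φ * hp

theorem cir_mem (φ : ℝ) : ((cir φ : S4) : E5) ∈ P2 := by
  show (Real.cos φ • ee 4 + Real.sin φ • ee 0 : E5) ∈ P2
  exact Submodule.mem_span_pair.2 ⟨_, _, rfl⟩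

theorem cid_mem (φ : ℝ) : cid φ ∈ P2 := Submodule.mem_span_pair.2 ⟨_, _, rfl⟩

theorem cir_zero : cir 0 = pt 4 := by
  apply Subtype.ext
  show (Real.cos 0 • ee 4 + Real.sin 0 • ee 0 : E5) = ee 4
  simp

/-- the criterion on the circle -/
theorem ndP_cir {q : ℝ → ℝ} (hq : ContDiff ℝ ∞ q) (hSm : Sm (fun x : S4 => q ((x : E5) 4)))
    (φ : ℝ) (h0 : deriv q (Real.cos φ) * Real.sin φ = 0)
    (hn : deriv (deriv q) (Real.cos φ) * Real.sin φ ^ 2 - deriv q (Real.cos φ) * Real.cos φ ≠ 0) :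
    NdP P2 (fun x : S4 => q ((x : E5) 4)) (cir φ) := by
  have hdq : ∀ c, HasDerivAt q (deriv q c) c := fun c =>
    ((hq.differentiable (by simp)) c).hasDerivAt
  constructor
  · intro v
    have h := Pool.Agent.FLX.H59.dd_comp_at (sm_coord 4) (φ := q)
      (φ' := deriv q (Real.cos φ)) (x := cir φ) (by rw [cir_four]; exact hdq _) v
    have h2 : dd (fun x : S4 => q ((x : E5) 4)) (cir φ) v =
        deriv q (Real.cos φ) * (v 4 - Real.cos φ * ⟪((cir φ : S4) : E5), v⟫_ℝ) := by
      rw [h, dd_coord, cir_four]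
    rw [h2]
    rcases mul_eq_zero.1 h0 with h3 | h3
    · rw [h3, zero_mul]
    · have hc : Real.cos φ ^ 2 = 1 := by
        have := Real.sin_sq_add_cos_sq φ
        rw [h3] at this
        linarith
      have h4 : ⟪((cir φ : S4) : E5), v⟫_ℝ = Real.cos φ * v 4 := by
        show ⟪(Real.cos φ • ee 4 + Real.sin φ • ee 0 : E5), v⟫_ℝ = _
        rw [h3, zero_smul, add_zero, real_inner_smul_left, inner_ee']
      rw [h4]
      have h5 : v 4 - Real.cos φ * (Real.cos φ * v 4) = v 4 * (1 - Real.cos φ ^ 2) := by ring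
      rw [h5, hc]
      ring
  · intro v hv hp hw
    obtain ⟨a, rfl⟩ := mem_P2_perp hv hp
    have h1 := hw (cid φ) (cid_mem φ) (cir_cid φ)
    have h2 : hess (fun x : S4 => q ((x : E5) 4)) (cir φ) (a • cid φ) (cid φ) =
        a * hess (fun x : S4 => q ((x : E5) 4)) (cir φ) (cid φ) (cid φ) := by
      unfold hess
      rw [map_smul]
      rfl
    rw [h2, hess_cir hq hSm] at h1
    rcases mul_eq_zero.1 h1 with h3 | h3
    · rw [h3, zero_smul]
    · exact absurd h3 hn

theorem znl : ZnlStmt := by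
  intro q hq
  have hq' : ContDiff ℝ ∞ (deriv q) := (contDiff_infty_iff_deriv.1 hq).2
  have hdq : ∀ c, HasDerivAt q (deriv q c) c := fun c =>
    ((hq.differentiable (by simp)) c).hasDerivAt
  have hdq' : ∀ c, HasDerivAt (deriv q) (deriv (deriv q) c) c := fun c =>
    ((hq'.differentiable (by simp)) c).hasDerivAt
  obtain ⟨hSm, hLap⟩ := sphLaplacian_zonal (ee 4) univ isOpen_univ (fun x => mem_univ _) q
    (deriv q) (deriv (deriv q)) hq.contDiffOn (fun c _ => hdq c) (fun c _ => hdq' c)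
  have he : (fun x : S4 => q ⟪ee 4, (x : E5)⟫_ℝ) = fun x : S4 => q ((x : E5) 4) := by
    funext x
    rw [inner_ee']
  rw [he] at hSm hLap
  have hlap : ∀ φ : ℝ, sphLaplacian (fun x : S4 => q ((x : E5) 4)) (cir φ) =
      (1 - Real.cos φ ^ 2) * deriv (deriv q) (Real.cos φ) -
        4 * Real.cos φ * deriv q (Real.cos φ) := by
    intro φ
    rw [hLap]
    simp only [inner_ee', norm_ee, cir_four, one_pow]
  refine ⟨hSm, ?_, ?_, ?_⟩
  · intro x
    show q (((act P2.reflection x : S4) : E5) 4) = q ((x : E5) 4)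
    rw [refl_four]
  · intro φ hφ0 hφ1 h1 h2
    have hs : 0 < Real.sin φ := Real.sin_pos_of_pos_of_lt_pi hφ0 hφ1
    have hs2 : 0 < Real.sin φ ^ 2 := by positivity
    have hsc := Real.sin_sq_add_cos_sq φ
    refine ⟨cir_mem φ, ndP_cir hq hSm φ (by rw [h1, zero_mul]) ?_, ?_⟩
    · rw [h1, zero_mul, sub_zero]
      exact (mul_pos h2 hs2).ne'
    · rw [hlap, h1, mul_zero, sub_zero]
      have : 1 - Real.cos φ ^ 2 = Real.sin φ ^ 2 := by linarith
      rw [this]
      exact mul_pos hs2 h2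
  · intro h1
    rw [← cir_zero]
    refine ⟨cir_mem 0, ndP_cir hq hSm 0 (by rw [Real.sin_zero, mul_zero]) ?_, ?_⟩
    · rw [Real.sin_zero, Real.cos_zero]
      intro h2
      have : deriv q 1 = 0 := by linarith
      rw [this] at h1
      exact lt_irrefl _ h1
    · rw [hlap, Real.cos_zero]
      linarith

end Pool.Agent.NGP.H36
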