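import Pool.Agent.Helper7_PQP.AllNE
import Pool.Agent.Helper36_NGP.NEZ
import Pool.Agent.Helper36_NGP.XPZ
import Pool.Agent.Helper36_NGP.SBZ
import Pool.Agent.Helper36_NGP.ZNL
import Pool.Agent.Helper36_NGP.Fin
import Pool.Agent.Helper27_NGP.RDI
import Pool.Agent.Helper77_NGP.BXI
import Pool.Agent.Helper8_NGP.EXI
import Pool.Agent.Helper49_NGP.TAI
import Pool.Agent.Helper29_NGP.SRI
import Pool.Agent.Helper29_NGP.ZNE
import Pool.Agent.Helper63_NGP.ZNN

/-!
# NGP: all rows without hypotheses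
-/

set_option autoImplicit false

noncomputable section

namespace Pool.Agent.NGP.All

open Pool.Agent.NGP Pool.Agent.FLX Pool.Agent.FLX.H54 Pool.Agent.PQP

theorem nez : Nea0Stmt := NGP.H36.nez PQP.All.ker mos_all PQP.All.mkb
theorem xpz : Xpn0Stmt := NGP.H36.xpz PQP.AllNE.qdr nez PQP.AllNE.fae
theorem sbz : Sbq0Stmt := NGP.H36.sbz PQP.All.mkb PQP.AllNE.fav PQP.All.ker mos_all
theorem rdi : RdiStmt := NGP.H27.rdi PQP.AllNE.sbf PQP.AllNE.sbn PQP.AllNE.sbk PQP.AllNE.sbl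
theorem bxi : BxiStmt := NGP.H77.bxi xpz sbz rdi PQP.AllNE.fav
theorem exi : ExiStmt := NGP.H8.exi bxi PQP.H37.pmi
theorem tai : TaiStmt := NGP.H49.tai PQP.All.taw PQP.H48.hsw
theorem sri : SriStmt := NGP.H29.sri exi tai
theorem znl : ZnlStmt := NGP.H36.znl
theorem znn : ZnnStmt := NGP.H63.znn
theorem zne : ZneStmt := NGP.H29.zne sri znl

end Pool.Agent.NGP.All
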